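import Pool.Agent.Run7.h105.PC.Defs

/-! # PC (helper105), pieces SUB and LOWK (helper24) -/

set_option autoImplicit false

open Filter Topology Set MeasureTheory
open scoped ENNReal

namespace Pool.Agent.Run7.h24.PC

open Pool.Agent.Run7.h105.PC

theorem t_SUB : S_SC → S_G1 → S_SUB := by
  intro hSC hG s hs m n
  obtain ⟨X, hXc, _, hX⟩ := hG s hs m
  obtain ⟨Y, hYc, _, hY⟩ := hG s hs n
  have h1 : Cov s 1 (Icc 0 ((m + n : ℕ) : ℝ)) (X + Y.map (fun x => (m : ℝ) + 1 * x)) := by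
    intro y hy
    rw [U_add]
    by_cases hym : y ≤ m
    · exact (hX y ⟨hy.1, hym⟩).trans (le_self_add)
    · push Not at hym
      have h2 := hSC s m 1 1 hs one_pos one_pos (Icc 0 (n : ℝ)) Y hY y (by
        rw [div_one]
        refine ⟨by linarith, ?_⟩
        have := hy.2
        push_cast at this
        linarith)
      rw [one_mul] at h2
      exact h2.trans (le_add_self)
  have h2 := G_le h1
  rw [Multiset.card_add, Multiset.card_map, hXc, hYc] at h2
  exact h2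

theorem t_LOWK : S_SC → S_LOWC → S_LOWK := by
  intro hSC hL s hs K hK m r k hm hr hk X hX
  obtain ⟨Y, hY, hYc⟩ := hL s hs K hK m r k hm hr hk X hX
  refine le_trans ?_ hYc
  have hm0 : (0 : ℝ) < m := by exact_mod_cast hm
  have hr0 : (0 : ℝ) < r := by exact_mod_cast hr
  have hk0 : (0 : ℝ) < k := by exact_mod_cast hk
  obtain ⟨ρ, hρ⟩ : ∃ ρ : ℝ, ρ = m * k * r / (r + 1) := ⟨_, rfl⟩
  have hρ0 : 0 < ρ := by rw [hρ]; positivity
  have hρδ : ρ * ((1 + 1 / (r : ℝ)) * (1 / ((m : ℝ) * k))) = 1 := by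
    rw [hρ]; field_simp
  have hn : ((m * k * r / (r + 1) : ℕ) : ℝ) ≤ ρ := by
    rw [hρ]
    have := @Nat.cast_div_le ℝ _ _ _ (m * k * r) (r + 1)
    push_cast at this ⊢
    exact this
  have h1 : Cov s 1 (Icc 0 ((m * k * r / (r + 1) : ℕ) : ℝ)) (Y.map (fun x => (0 : ℝ) + ρ * x)) := by
    intro y hy
    have h2 := hSC s 0 ρ ((1 + 1 / (r : ℝ)) * (1 / ((m : ℝ) * k))) hs hρ0 (by positivity) (Icc 0 1) Y hY y (by
      rw [sub_zero]
      exact ⟨div_nonneg hy.1 hρ0.le, (div_le_one hρ0).2 (hy.2.trans hn)⟩)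
    rw [hρδ] at h2
    exact h2
  have h2 := G_le h1
  rw [Multiset.card_map] at h2
  exact h2

end Pool.Agent.Run7.h24.PC
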